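import Pool.Agent.MP_1246c0_nt.H55.SpecC

/-! Lattice points in residue classes in a dilated compact set. -/

namespace Pool.Agent.MP_1246c0_nt.H59

open Filter MeasureTheory Metric Topology Pool.Agent.MP_1246c0_nt.H55
open scoped Pointwise

/-- the half open cube of side `M` at an integral point -/
def cube (M : ℕ) (f : Fm ℤ) : Set (Fm ℝ) :=
  Set.pi Set.univ fun i => Set.Ico (f i : ℝ) (f i + M)

theorem cube_meas (M : ℕ) (f : Fm ℤ) : MeasurableSet (cube M f) :=
  MeasurableSet.univ_pi fun _ => measurableSet_Ico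

theorem cube_vol (M : ℕ) (f : Fm ℤ) : volume (cube M f) = ENNReal.ofReal ((M : ℝ) ^ 4) := by
  rw [cube, Real.volume_pi_Ico]
  simp only [add_sub_cancel_left, Finset.prod_const, Finset.card_univ, Fintype.card_fin]
  rw [ENNReal.ofReal_pow (Nat.cast_nonneg M)]

theorem cube_disj {M : ℕ} {f g : Fm ℤ} (h : cst (ZMod M) f = cst (ZMod M) g) (hne : f ≠ g) :
    Disjoint (cube M f) (cube M g) := by
  rw [Set.disjoint_left]
  intro x hf hg
  apply hne
  funext i
  have a := hf i (Set.mem_univ i)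
  have b := hg i (Set.mem_univ i)
  have hd : (M : ℤ) ∣ g i - f i := (ZMod.intCast_eq_intCast_iff_dvd_sub _ _ _).1 (congrFun h i)
  have hl : |g i - f i| < M := by
    have : |((g i : ℝ)) - f i| < M := abs_lt.2 ⟨by linarith [a.1, b.2], by linarith [a.2, b.1]⟩
    exact_mod_cast this
  have := Int.eq_zero_of_abs_lt_dvd hd hl
  omega

theorem cube_sub {K : Set (Fm ℝ)} {M : ℕ} {δ s : ℝ} (hs : 0 < s) (hM : (M : ℝ) ≤ δ * s)
    {f : Fm ℤ} (hf : cst ℝ f ∈ s • K) : cube M f ⊆ s • cthickening δ K := by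
  intro x hx
  obtain ⟨k, hk, e⟩ := hf
  have hδ : 0 ≤ δ := by
    by_contra hc
    have := mul_neg_of_neg_of_pos (not_le.1 hc) hs
    linarith [Nat.cast_nonneg (α := ℝ) M]
  refine ⟨s⁻¹ • x, mem_cthickening_of_dist_le _ k _ _ hk ?_, smul_inv_smul₀ hs.ne' x⟩
  refine (dist_pi_le_iff hδ).2 fun i => ?_
  have a := hx i (Set.mem_univ i)
  have e1 : s * k i = f i := congrFun e i
  have e2 : k i = s⁻¹ * f i := by
    rw [← e1]
    field_simp
  rw [Real.dist_eq, Pi.smul_apply, smul_eq_mul, e2, ← mul_sub, abs_mul,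
    abs_of_pos (inv_pos.2 hs), inv_mul_le_iff₀ hs, abs_of_nonneg (sub_nonneg.2 a.1)]
  linarith [a.2]

theorem one_class {K : Set (Fm ℝ)} {M : ℕ} {δ s W : ℝ} (hs : 0 < s) (hM : (M : ℝ) ≤ δ * s)
    (hW : 0 ≤ W) (hv : volume (cthickening δ K) ≤ ENNReal.ofReal W) (S : Finset (Fm ℤ))
    (w : Fm (ZMod M)) (hS : ∀ f ∈ S, cst (ZMod M) f = w ∧ cst ℝ f ∈ s • K) :
    (S.card : ℝ) * M ^ 4 ≤ W * s ^ 4 := by
  have h1 : volume (⋃ f ∈ S, cube M f) = ∑ f ∈ S, volume (cube M f) :=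
    measure_biUnion_finset
      (fun f hf g hg hne => cube_disj ((hS f hf).1.trans (hS g hg).1.symm) hne)
      fun f _ => cube_meas M f
  have h2 : volume (⋃ f ∈ S, cube M f) ≤ volume (s • cthickening δ K) :=
    measure_mono (Set.iUnion₂_subset fun f hf => cube_sub hs hM (hS f hf).2)
  rw [h1, Measure.addHaar_smul_of_nonneg _ hs.le] at h2
  simp only [cube_vol, Finset.sum_const, Module.finrank_fin_fun, nsmul_eq_mul] at h2
  have h3 : ENNReal.ofReal ((S.card : ℝ) * M ^ 4) ≤ ENNReal.ofReal (W * s ^ 4) := by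
    rw [ENNReal.ofReal_mul (Nat.cast_nonneg _), ENNReal.ofReal_natCast, mul_comm W,
      ENNReal.ofReal_mul (by positivity)]
    exact h2.trans (mul_le_mul_right hv _)
  exact (ENNReal.ofReal_le_ofReal_iff (by positivity)).1 h3

theorem rowLAT : RowLAT := by
  classical
  intro K V ε M hK hV hvol hε hM
  have hlt : volume K < ENNReal.ofReal (V + ε) :=
    hvol.trans_lt ((ENNReal.ofReal_lt_ofReal_iff (by linarith)).2 (by linarith))
  have hev : ∀ᶠ r in 𝓝 (0 : ℝ), volume (cthickening r K) < ENNReal.ofReal (V + ε) :=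
    (tendsto_measure_cthickening_of_isCompact hK).eventually (gt_mem_nhds hlt)
  obtain ⟨δ, hδ, hv⟩ : ∃ δ : ℝ, 0 < δ ∧ volume (cthickening δ K) < ENNReal.ofReal (V + ε) := by
    have h2 : ∀ᶠ r in 𝓝[>] (0 : ℝ), volume (cthickening r K) < ENNReal.ofReal (V + ε) :=
      hev.filter_mono nhdsWithin_le_nhds
    exact (h2.and self_mem_nhdsWithin).exists.imp fun r hr => ⟨hr.2, hr.1⟩
  filter_upwards [eventually_gt_atTop 0, eventually_ge_atTop (M / δ)] with s hs hs' Ω S hS
  have hMs : (M : ℝ) ≤ δ * s := by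
    rw [div_le_iff₀ hδ] at hs'
    linarith
  rw [Finset.card_eq_sum_card_fiberwise (f := cst (ZMod M)) (t := Ω) fun f hf => (hS f hf).1,
    Nat.cast_sum, Finset.sum_mul, mul_assoc, ← nsmul_eq_mul, ← Finset.sum_const]
  refine Finset.sum_le_sum fun w _ => one_class hs hMs (by linarith) hv.le _ w fun f hf => ?_
  rw [Finset.mem_filter] at hf
  exact ⟨hf.2, (hS f hf.1).2⟩

end Pool.Agent.MP_1246c0_nt.H59
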