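import Pool.Agent.MP_1246c0_nt.H55.SpecA

/-! The conditions at `3` for attached forms. -/

namespace Pool.Agent.MP_1246c0_nt.H59

open Pool.Agent.MP_1246c0_nt.H55

/-- the form is a combination of two cubes of linear forms -/
def Mdl {R : Type} [CommRing R] (c D : R) (f : Fm R) (x1 y1 : R) : Prop :=
  ∃ S x2 y2 w1 w2 t : R, S ^ 2 = D ∧ x1 * y2 - x2 * y1 = S ∧ w1 * w2 = 1 ∧ w1 ^ 2 - 1 = 9 * t ∧
    S * f 0 = w1 * x1 ^ 3 - c * w2 * x2 ^ 3 ∧ S * f 1 = w1 * x1 ^ 2 * y1 - c * w2 * x2 ^ 2 * y2 ∧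
    S * f 2 = w1 * x1 * y1 ^ 2 - c * w2 * x2 * y2 ^ 2 ∧ S * f 3 = w1 * y1 ^ 3 - c * w2 * y2 ^ 3

theorem Mdl.act {R : Type} [CommRing R] {c D : R} {f : Fm R} {x y : R} (h : Mdl c D f x y)
    {p q r s : R} (hd : p * s - q * r = 1) :
    Mdl c D (act f p q r s) (x * p + y * r) (x * q + y * s) := by
  obtain ⟨S, x2, y2, w1, w2, t, h1, h2, h3, h4, e0, e1, e2, e3⟩ := h
  refine ⟨S, x2 * p + y2 * r, x2 * q + y2 * s, w1, w2, t, h1, ?_, h3, h4, ?_, ?_, ?_, ?_⟩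
  · linear_combination (p * s - q * r) * h2 + S * hd
  · simp only [H55.act, ev, Matrix.cons_val_zero]
    linear_combination p ^ 3 * e0 + 3 * p ^ 2 * r * e1 + 3 * p * r ^ 2 * e2 + r ^ 3 * e3
  · simp only [H55.act, ev, Matrix.cons_val_zero, Matrix.cons_val_one]
    linear_combination p ^ 2 * q * e0 + (p ^ 2 * s + 2 * p * q * r) * e1 +
      (2 * p * r * s + q * r ^ 2) * e2 + r ^ 2 * s * e3
  · simp only [H55.act, ev, Matrix.cons_val]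
    linear_combination p * q ^ 2 * e0 + (2 * p * q * s + q ^ 2 * r) * e1 +
      (p * s ^ 2 + 2 * q * r * s) * e2 + r * s ^ 2 * e3
  · simp only [H55.act, ev, Matrix.cons_val]
    linear_combination q ^ 3 * e0 + 3 * q ^ 2 * s * e1 + 3 * q * s ^ 2 * e2 + s ^ 3 * e3

theorem Mdl.map {R R' : Type} [CommRing R] [CommRing R'] (φ : R →+* R') {c : ℤ} {D : ℕ}
    {f : Fm ℤ} {x y : R} (h : Mdl (c : R) D (cst R f) x y) :
    Mdl (c : R') D (cst R' f) (φ x) (φ y) := by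
  obtain ⟨S, x2, y2, w1, w2, t, h1, h2, h3, h4, e0, e1, e2, e3⟩ := h
  refine ⟨φ S, φ x2, φ y2, φ w1, φ w2, φ t, ?_, ?_, ?_, ?_, ?_, ?_, ?_, ?_⟩
  · simpa using congrArg φ h1
  · simpa using congrArg φ h2
  · simpa using congrArg φ h3
  · simpa [map_ofNat] using congrArg φ h4
  · simpa [cst] using congrArg φ e0
  · simpa [cst] using congrArg φ e1
  · simpa [cst] using congrArg φ e2
  · simpa [cst] using congrArg φ e3

theorem of_zmod {a b : ℤ} (h : (a : ZMod (3 ^ 3)) = (b : ZMod (3 ^ 3))) : ∃ t, a = b + 27 * t := by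
  obtain ⟨t, ht⟩ := (ZMod.intCast_eq_intCast_iff_dvd_sub _ _ _).1 h.symm
  exact ⟨t, by push_cast at ht; linarith⟩

theorem Mdl.lift {c : ℤ} {D : ℕ} (hD : D % 3 = 1) {f : Fm ℤ} {x y : ℤ}
    (h : Mdl (c : ZMod (3 ^ 3)) D (cst _ f) x y) :
    ∃ S x2 y2 w1 w2 u t0 t1 t2 t3 : ℤ, ¬ 3 ∣ S ∧ ¬ 3 ∣ x * y2 - x2 * y ∧ ¬ 3 ∣ w1 ∧
      w2 = w1 + 9 * u ∧ S * f 0 = w1 * x ^ 3 - c * w2 * x2 ^ 3 + 27 * t0 ∧
      S * f 1 = w1 * x ^ 2 * y - c * w2 * x2 ^ 2 * y2 + 27 * t1 ∧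
      S * f 2 = w1 * x * y ^ 2 - c * w2 * x2 * y2 ^ 2 + 27 * t2 ∧
      S * f 3 = w1 * y ^ 3 - c * w2 * y2 ^ 3 + 27 * t3 := by
  obtain ⟨S, x2, y2, w1, w2, t, h1, h2, h3, h4, e0, e1, e2, e3⟩ := h
  obtain ⟨S, rfl⟩ := ZMod.intCast_surjective S
  obtain ⟨x2, rfl⟩ := ZMod.intCast_surjective x2
  obtain ⟨y2, rfl⟩ := ZMod.intCast_surjective y2
  obtain ⟨w1, rfl⟩ := ZMod.intCast_surjective w1
  obtain ⟨w2, rfl⟩ := ZMod.intCast_surjective w2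
  obtain ⟨t, rfl⟩ := ZMod.intCast_surjective t
  obtain ⟨a1, k1⟩ := of_zmod (a := S ^ 2) (b := D) (by exact_mod_cast h1)
  obtain ⟨a2, k2⟩ := of_zmod (a := x * y2 - x2 * y) (b := S) (by exact_mod_cast h2)
  obtain ⟨a3, k3⟩ := of_zmod (a := w1 * w2) (b := 1) (by exact_mod_cast h3)
  obtain ⟨a4, k4⟩ := of_zmod (a := w1 ^ 2 - 1) (b := 9 * t) (by exact_mod_cast h4)
  obtain ⟨t0, l0⟩ := of_zmod (a := S * f 0) (b := w1 * x ^ 3 - c * w2 * x2 ^ 3)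
    (by simpa [cst] using e0)
  obtain ⟨t1, l1⟩ := of_zmod (a := S * f 1) (b := w1 * x ^ 2 * y - c * w2 * x2 ^ 2 * y2)
    (by simpa [cst] using e1)
  obtain ⟨t2, l2⟩ := of_zmod (a := S * f 2) (b := w1 * x * y ^ 2 - c * w2 * x2 * y2 ^ 2)
    (by simpa [cst] using e2)
  obtain ⟨t3, l3⟩ := of_zmod (a := S * f 3) (b := w1 * y ^ 3 - c * w2 * y2 ^ 3)
    (by simpa [cst] using e3)
  have hS : ¬ 3 ∣ S := by
    rintro ⟨z, rfl⟩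
    have : (D : ℤ) = 3 * (3 * z ^ 2 - 9 * a1) := by linear_combination -k1
    omega
  refine ⟨S, x2, y2, w1, w2, -w2 * (t + 3 * a4) + 3 * w1 * a3, t0, t1, t2, t3, hS, ?_, ?_, ?_,
    l0, l1, l2, l3⟩
  · rw [k2]
    omega
  · rintro ⟨z, rfl⟩
    have : (1 : ℤ) = 3 * (z * w2 - 9 * a3) := by linear_combination -k3
    omega
  · linear_combination w1 * k3 - w2 * k4

theorem cancel {S a : ℤ} (hS : ¬ 3 ∣ S) (n : ℕ) (h : 3 ^ n ∣ S * a) : 3 ^ n ∣ a :=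
  ((Int.prime_three.coprime_iff_not_dvd.2 hS).pow_left).dvd_of_dvd_mul_left h

theorem four (a b : ℤ) : 3 ∣ a * 1 + b * 0 ∨ 3 ∣ a * 0 + b * 1 ∨ 3 ∣ a * 1 + b * 1 ∨
    3 ∣ a * 1 + b * (-1) := by
  have ha : a % 3 = 0 ∨ a % 3 = 1 ∨ a % 3 = 2 := by omega
  have hb : b % 3 = 0 ∨ b % 3 = 1 ∨ b % 3 = 2 := by omega
  rcases ha with ha | ha | ha <;> rcases hb with hb | hb | hb <;> omega

theorem case_one {D : ℕ} (hD : D % 3 = 1) {f : Fm ℤ} {x y : ℤ}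
    (h : Mdl ((1 : ℤ) : ZMod (3 ^ 3)) D (cst _ f) x y) :
    9 ∣ ev f 1 0 ∨ 9 ∣ ev f 0 1 ∨ 9 ∣ ev f 1 1 ∨ 9 ∣ ev f 1 (-1) := by
  obtain ⟨S, x2, y2, w1, w2, u, t0, t1, t2, t3, hS, -, -, hw, e0, e1, e2, e3⟩ := h.lift hD
  have key : ∀ a b : ℤ, 3 ∣ (x - x2) * a + (y - y2) * b → 9 ∣ ev f a b := by
    rintro a b ⟨k, hk⟩
    refine cancel hS 2 ⟨w1 * ((x2 * a + y2 * b) ^ 2 * k + 3 * (x2 * a + y2 * b) * k ^ 2 +
      3 * k ^ 3) - u * (x2 * a + y2 * b) ^ 3 +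
      3 * (t0 * a ^ 3 + 3 * t1 * a ^ 2 * b + 3 * t2 * a * b ^ 2 + t3 * b ^ 3), ?_⟩
    have e : x * a + y * b = x2 * a + y2 * b + 3 * k := by linear_combination hk
    have e' : (x * a + y * b) ^ 3 = (x2 * a + y2 * b + 3 * k) ^ 3 := by rw [e]
    unfold ev
    linear_combination a ^ 3 * e0 + 3 * a ^ 2 * b * e1 + 3 * a * b ^ 2 * e2 + b ^ 3 * e3 +
      w1 * e' - (x2 * a + y2 * b) ^ 3 * hw
  exact (four (x - x2) (y - y2)).imp (key _ _) (Or.imp (key _ _) (Or.imp (key _ _) (key _ _)))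

theorem cube9 {l : ℤ} (h : ¬ 3 ∣ l) : ∃ e t : ℤ, (e = 1 ∨ e = -1) ∧ l ^ 3 = e + 9 * t := by
  obtain ⟨k, rfl | rfl⟩ : ∃ k, l = 3 * k + 1 ∨ l = 3 * k - 1 := ⟨(l + 1) / 3, by omega⟩
  · exact ⟨1, 3 * k ^ 3 + 3 * k ^ 2 + k, Or.inl rfl, by ring⟩
  · exact ⟨-1, 3 * k ^ 3 - 3 * k ^ 2 + k, Or.inr rfl, by ring⟩

theorem tri {μ : ℤ} (h : ¬ 3 ∣ μ) (ν : ℤ) : ∃ d, ν * (μ ^ 2 - ν ^ 2) = 3 * d := by
  obtain ⟨a, ha⟩ : ∃ a, μ ^ 2 = 1 + 3 * a := by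
    obtain ⟨k, rfl | rfl⟩ : ∃ k, μ = 3 * k + 1 ∨ μ = 3 * k - 1 := ⟨(μ + 1) / 3, by omega⟩
    · exact ⟨3 * k ^ 2 + 2 * k, by ring⟩
    · exact ⟨3 * k ^ 2 - 2 * k, by ring⟩
  obtain ⟨b, hb⟩ : ∃ b, ν ^ 3 = ν + 3 * b := by
    obtain ⟨k, rfl | rfl | rfl⟩ : ∃ k, ν = 3 * k ∨ ν = 3 * k + 1 ∨ ν = 3 * k - 1 :=
      ⟨(ν + 1) / 3, by omega⟩
    · exact ⟨9 * k ^ 3 - k, by ring⟩
    · exact ⟨9 * k ^ 3 + 9 * k ^ 2 + 2 * k, by ring⟩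
    · exact ⟨9 * k ^ 3 - 9 * k ^ 2 + 2 * k, by ring⟩
  exact ⟨a * ν - b, by linear_combination ν * ha - hb⟩

theorem std {D : ℕ} (hD : D % 3 = 1) {g : Fm ℤ} {x l : ℤ}
    (hM : Mdl ((3 : ℤ) : ZMod (3 ^ 3)) D (cst _ g) x l) (hx : 3 ∣ x) : Std g := by
  obtain ⟨S, μ, ν, w1, w2, c, t0, t1, t2, t3, hS, hdet, hw1, hw, e0, e1, e2, e3⟩ := hM.lift hD
  obtain ⟨h, rfl⟩ := hx
  have hμl : ¬ 3 ∣ μ * l := fun ⟨z, hz⟩ => hdet ⟨h * ν - z, by linear_combination -hz⟩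
  have hμ : ¬ 3 ∣ μ := fun hh => hμl (hh.mul_right _)
  have hl : ¬ 3 ∣ l := fun hh => hμl (hh.mul_left _)
  obtain ⟨ε1, a, hε1, ha⟩ := cube9 hl
  obtain ⟨ε2, b, hε2, hb⟩ := cube9 hμ
  obtain ⟨d, hd⟩ := tri hμ ν
  have key : ∀ σ : ℤ, ε1 = σ * ε2 → 27 ∣ 3 * (g 3 - g 1) + σ * g 0 := fun σ hσ =>
    cancel hS 3 ⟨w1 * a + w2 * d + 3 * (t3 - t1) - w1 * h ^ 2 * l + σ * (w1 * h ^ 3 + t0) -
      σ * (w1 * b + c * ε2 + 9 * b * c), by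
      linear_combination 3 * e3 - 3 * e1 + σ * e0 + 3 * w1 * ha + 9 * w2 * hd -
        3 * σ * w2 * hb - 3 * σ * (ε2 + 9 * b) * hw + 3 * w1 * hσ⟩
  refine ⟨?_, ?_, ?_, ?_⟩
  · exact cancel hS 1 ⟨3 * w1 * h ^ 2 * l - w2 * μ ^ 2 * ν + 9 * t1, by linear_combination e1⟩
  · exact cancel hS 1 ⟨w1 * h * l ^ 2 - w2 * μ * ν ^ 2 + 9 * t2, by linear_combination e2⟩
  · rintro ⟨z, hz⟩
    have h3 : 3 ∣ w1 * l ^ 3 := ⟨S * z + w2 * ν ^ 3 - 9 * t3, by linear_combination S * hz - e3⟩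
    exact (Int.prime_three.dvd_or_dvd h3).elim hw1 fun h4 =>
      hl (Int.prime_three.dvd_of_dvd_pow h4)
  · have : ε1 = -1 * ε2 ∨ ε1 = 1 * ε2 := by omega
    refine this.imp (fun h1 => ?_) fun h1 => ?_
    · simpa [sub_eq_add_neg] using key _ h1
    · simpa using key _ h1

theorem case_three {D : ℕ} (hD : D % 3 = 1) {f : Fm ℤ} {x y : ℤ}
    (h : Mdl ((3 : ℤ) : ZMod (3 ^ 3)) D (cst _ f) x y) : P1 f := by
  have key : ∀ p q r s : ℤ, p * s - q * r = 1 → 3 ∣ x * p + y * r → Std (act f p q r s) := by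
    intro p q r s hd h3
    refine std hD (l := x * q + y * s) ?_ h3
    rw [cst_act]
    push_cast
    exact h.act (by exact_mod_cast congrArg (Int.cast : ℤ → ZMod (3 ^ 3)) hd)
  exact (four x y).imp (fun h3 => std hD h (by simpa using h3)) (Or.imp (key _ _ _ _ (by norm_num))
    (Or.imp (key _ _ _ _ (by norm_num)) (key _ _ _ _ (by norm_num))))

theorem norm3 : ‖(3 : ℚ_[3])‖ = 3⁻¹ := by simpa using Padic.norm_p (p := 3)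

theorem le_one {x : ℚ_[3]} (h : ‖x‖ ^ 3 ≤ 9) : ‖x‖ ≤ 1 := by
  have := (Padic.norm_le_pow_iff_norm_lt_pow_add_one x 0).2 (by
    norm_num
    by_contra hc
    have := pow_le_pow_left₀ (by norm_num) (not_lt.1 hc) 3
    linarith)
  simpa using this

theorem lt_one {x : ℚ_[3]} (h : ‖x‖ ^ 3 ≤ 3⁻¹) : ‖x‖ < 1 := by
  by_contra hc
  have := one_le_pow₀ (n := 3) (not_lt.1 hc)
  linarith

theorem imposs {x1 y1 x2 y2 S : ℚ_[3]} (a : ‖x1‖ < 1) (b : ‖y1‖ < 1) (c : ‖x2‖ ≤ 1)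
    (d : ‖y2‖ ≤ 1) (e : x1 * y2 - x2 * y1 = S) (hS : ‖S‖ = 1) : False := by
  have h := Padic.nonarchimedean (x1 * y2) (-(x2 * y1))
  rw [← sub_eq_add_neg, e, hS, norm_neg, norm_mul, norm_mul] at h
  rcases le_max_iff.1 h with h | h
  · nlinarith [norm_nonneg x1, norm_nonneg y2]
  · nlinarith [norm_nonneg x2, norm_nonneg y1]

theorem toZ {c : ℤ} {D : ℕ} {f : Fm ℤ} {S x1 y1 x2 y2 w1 w2 : ℚ_[3]} (nS : ‖S‖ = 1)
    (n1 : ‖x1‖ ≤ 1) (n2 : ‖y1‖ ≤ 1) (n3 : ‖x2‖ ≤ 1) (n4 : ‖y2‖ ≤ 1) (n5 : ‖w1‖ = 1)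
    (h1 : S ^ 2 = D) (h2 : x1 * y2 - x2 * y1 = S) (h3 : w1 * w2 = 1)
    (h4 : ‖w1 ^ 2 - 1‖ ≤ 9⁻¹) (e0 : S * f 0 = w1 * x1 ^ 3 - c * w2 * x2 ^ 3)
    (e1 : S * f 1 = w1 * x1 ^ 2 * y1 - c * w2 * x2 ^ 2 * y2)
    (e2 : S * f 2 = w1 * x1 * y1 ^ 2 - c * w2 * x2 * y2 ^ 2)
    (e3 : S * f 3 = w1 * y1 ^ 3 - c * w2 * y2 ^ 3) :
    ∃ x y : ℤ, Mdl (c : ZMod (3 ^ 3)) D (cst _ f) x y := by
  have n6 : ‖w2‖ ≤ 1 := by
    have := congrArg norm h3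
    rw [norm_mul, n5, one_mul, norm_one] at this
    exact this.le
  have n7 : ‖(w1 ^ 2 - 1) / 3 ^ 2‖ ≤ 1 := by
    rw [norm_div, norm_pow, norm3, div_le_one (by norm_num)]
    linarith
  have h : Mdl (c : ℤ_[3]) D (cst _ f) ⟨x1, n1⟩ ⟨y1, n2⟩ := by
    refine ⟨⟨S, nS.le⟩, ⟨x2, n3⟩, ⟨y2, n4⟩, ⟨w1, n5.le⟩, ⟨w2, n6⟩, ⟨_, n7⟩, ?_, ?_, ?_, ?_, ?_,
      ?_, ?_, ?_⟩ <;> apply Subtype.ext
    · simpa using h1
    · simpa using h2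
    · simpa using h3
    · change w1 ^ 2 - 1 = 9 * ((w1 ^ 2 - 1) / 3 ^ 2)
      field_simp
      ring
    · simpa [cst] using e0
    · simpa [cst] using e1
    · simpa [cst] using e2
    · simpa [cst] using e3
  have h' := h.map (PadicInt.toZModPow 3)
  obtain ⟨x, hx⟩ := ZMod.intCast_surjective (PadicInt.toZModPow 3 (⟨x1, n1⟩ : ℤ_[3]))
  obtain ⟨y, hy⟩ := ZMod.intCast_surjective (PadicInt.toZModPow 3 (⟨y1, n2⟩ : ℤ_[3]))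
  exact ⟨x, y, hx ▸ hy ▸ h'⟩

theorem norm_int {k : Type} [Field k] (ι : k →+* ℚ_[3]) {x : k} (hx : IsIntegral ℤ x) :
    ‖ι x‖ ≤ 1 := by
  have h1 : IsIntegral ℤ (ι x) := hx.map ι.toIntAlgHom
  have h2 : IsIntegral ℤ_[3] (ι x) := h1.tower_top
  obtain ⟨z, hz⟩ := IsIntegrallyClosed.isIntegral_iff.1 h2
  rw [← hz]
  exact z.2

theorem normal {k : Type} [Field k] [NumberField k] {s : k} {τ : k ≃ₐ[ℚ] k} {q : ℕ} {δ : k}
    {f : Fm ℤ} (ι : k →+* ℚ_[3]) (h : Att s τ q δ f) {ρ v : ℚ_[3]} (hρ : ρ ≠ 0)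
    (hv : ι δ = ρ ^ 3 * v) :
    ∃ x1 y1 x2 y2 : ℚ_[3], x1 * y2 - x2 * y1 = ι s ∧ ‖x1‖ ^ 3 ≤ ‖v‖ ∧ ‖y1‖ ^ 3 ≤ ‖v‖ ∧
      ‖q * v‖ * ‖x2‖ ^ 3 ≤ 1 ∧ ‖q * v‖ * ‖y2‖ ^ 3 ≤ 1 ∧
      ι s * f 0 = v⁻¹ * x1 ^ 3 - q * v * x2 ^ 3 ∧
      ι s * f 1 = v⁻¹ * x1 ^ 2 * y1 - q * v * x2 ^ 2 * y2 ∧
      ι s * f 2 = v⁻¹ * x1 * y1 ^ 2 - q * v * x2 * y2 ^ 2 ∧
      ι s * f 3 = v⁻¹ * y1 ^ 3 - q * v * y2 ^ 3 := by
  obtain ⟨hδ, α, β, n, hn, h1, h2, h3⟩ := h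
  have hd : ι δ ≠ 0 := (map_ne_zero ι).2 hδ
  have hv0 : v ≠ 0 := fun h0 => hd (by rw [hv, h0, mul_zero])
  have hN : (n : ℚ_[3]) ≠ 0 := by exact_mod_cast hn
  have hd' : ι (τ δ) ≠ 0 := (map_ne_zero ι).2 ((map_ne_zero τ).2 hδ)
  have k1 : ι α * ι (τ β) - ι (τ α) * ι β = n * ι s := by simpa using congrArg ι h1
  have k2 : (n : ℚ_[3]) ^ 3 = q * (ρ ^ 3 * v * ι (τ δ)) := by simpa [hv] using congrArg ι h2
  have hq : (q : ℚ_[3]) ≠ 0 := fun h0 => pow_ne_zero 3 hN (by rw [k2, h0, zero_mul])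
  have k3 : ι (τ δ) = n ^ 3 / (q * ρ ^ 3 * v) := by
    rw [k2]
    field_simp
  have u : ∀ i : Fin 4, ι (α ^ (3 - i.1) * β ^ i.1 / δ) =
      ι α ^ (3 - i.1) * ι β ^ i.1 / (ρ ^ 3 * v) := fun i => by simp [hv]
  have u' : ∀ i : Fin 4, ι (τ (α ^ (3 - i.1) * β ^ i.1 / δ)) =
      ι (τ α) ^ (3 - i.1) * ι (τ β) ^ i.1 / (n ^ 3 / (q * ρ ^ 3 * v)) := fun i => by simp [k3]
  have a := fun i => u i ▸ norm_int ι (h3 i).1
  have a' : ∀ i : Fin 4,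
      ‖ι (τ α) ^ (3 - i.1) * ι (τ β) ^ i.1 / (n ^ 3 / (q * ρ ^ 3 * v))‖ ≤ 1 := fun i =>
    u' i ▸ norm_int (ι.comp (τ : k →+* k)) (h3 i).1
  have e : ∀ i : Fin 4, ι s * f i = ι α ^ (3 - i.1) * ι β ^ i.1 / (ρ ^ 3 * v) -
      ι (τ α) ^ (3 - i.1) * ι (τ β) ^ i.1 / (n ^ 3 / (q * ρ ^ 3 * v)) := fun i => by
    rw [← u, ← u', ← map_sub, ← (h3 i).2, map_mul, map_intCast, mul_comm]
  have b : ∀ z : ℚ_[3], ‖z ^ 3 / (ρ ^ 3 * v)‖ ≤ 1 → ‖z / ρ‖ ^ 3 ≤ ‖v‖ := fun z hz => by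
    have : z ^ 3 / (ρ ^ 3 * v) = (z / ρ) ^ 3 / v := by field_simp
    rwa [this, norm_div, norm_pow, div_le_one (norm_pos_iff.2 hv0)] at hz
  have b' : ∀ z : ℚ_[3], ‖z ^ 3 / (n ^ 3 / (q * ρ ^ 3 * v))‖ ≤ 1 →
      ‖q * v‖ * ‖z * ρ / n‖ ^ 3 ≤ 1 := fun z hz => by
    have : z ^ 3 / (n ^ 3 / (q * ρ ^ 3 * v)) = q * v * (z * ρ / n) ^ 3 := by field_simp
    rwa [this, norm_mul, norm_pow] at hz
  refine ⟨ι α / ρ, ι β / ρ, ι (τ α) * ρ / n, ι (τ β) * ρ / n, ?_, b _ (by simpa using a 0),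
    b _ (by simpa using a 3), b' _ (by simpa using a' 0), b' _ (by simpa using a' 3),
    ?_, ?_, ?_, ?_⟩
  · field_simp
    linear_combination k1
  · rw [e 0]
    simp only [Fin.val_zero, Nat.sub_zero]
    field_simp
  · rw [e 1]
    simp only [Fin.val_one, Nat.add_one_sub_one]
    field_simp
  · rw [e 2]
    simp only [Fin.val_two, show 3 - 2 = 1 from rfl]
    field_simp
  · rw [e 3]
    simp only [show ((3 : Fin 4) : ℕ) = 3 from rfl, Nat.sub_self]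
    field_simp

theorem lam_cases {d : ℚ_[3]} (h : Lam 1 d) : ∃ ρ w : ℚ_[3], ρ ≠ 0 ∧ ‖w‖ = 1 ∧
    ‖w ^ 2 - 1‖ ≤ 9⁻¹ ∧ (d = ρ ^ 3 * w ∨ d = ρ ^ 3 * (3 * w) ∨ d = ρ ^ 3 * (9 * w)) := by
  obtain ⟨m, hm⟩ := h
  have h3 : (3 : ℚ_[3]) ≠ 0 := three_ne_zero
  have hm' : ‖(d / 3 ^ m) ^ 2 - 1‖ ≤ 9⁻¹ := hm.trans_eq (by norm_num)
  have hw : ‖d / 3 ^ m‖ = 1 := by
    have : ‖(d / 3 ^ m) ^ 2‖ = ‖(-1 : ℚ_[3])‖ := Padic.norm_eq_of_norm_add_lt_right (by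
      rw [← sub_eq_add_neg, norm_neg, norm_one]
      linarith)
    rw [norm_neg, norm_one, norm_pow] at this
    exact (pow_eq_one_iff_of_nonneg (norm_nonneg _) two_ne_zero).1 this
  have e : ∀ (j : ℤ) (r : ℕ), m = 3 * j + r → d = (3 ^ j) ^ 3 * (3 ^ r * (d / 3 ^ m)) := by
    rintro j r rfl
    rw [zpow_add₀ h3, mul_comm 3 j, zpow_mul, zpow_natCast, zpow_ofNat]
    field_simp
  refine ⟨3 ^ (m / 3), d / 3 ^ m, zpow_ne_zero _ h3, hw, hm', ?_⟩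
  have : m = 3 * (m / 3) + (0 : ℕ) ∨ m = 3 * (m / 3) + (1 : ℕ) ∨ m = 3 * (m / 3) + (2 : ℕ) := by
    omega
  refine this.imp (fun h => ?_) (Or.imp (fun h => ?_) fun h => ?_)
  · simpa using e _ _ h
  · simpa using e _ _ h
  · exact (e _ _ h).trans (by norm_num)

theorem inv_close {w : ℚ_[3]} (hw : ‖w‖ = 1) (h : ‖w ^ 2 - 1‖ ≤ 9⁻¹) : ‖w⁻¹ ^ 2 - 1‖ ≤ 9⁻¹ := by
  have h0 : w ≠ 0 := norm_pos_iff.1 (hw ▸ one_pos)
  have : w⁻¹ ^ 2 - 1 = -(w ^ 2 - 1) / w ^ 2 := by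
    field_simp
    ring
  rwa [this, norm_div, norm_neg, norm_pow, hw, one_pow, div_one]

theorem rowLOC (_ : RowQB) : RowLOC := by
  intro k _ _ D s τ δ f ι hQ hD hL
  have hS2 : ι s ^ 2 = D := by simpa using congrArg ι hQ.sq
  have hS : ‖ι s‖ = 1 := by
    have : ‖(D : ℚ_[3])‖ = 1 := Padic.norm_natCast_eq_one_iff.2
      ((Nat.Prime.coprime_iff_not_dvd Nat.prime_three).2 (by omega))
    rw [← hS2, norm_pow] at this
    exact (pow_eq_one_iff_of_nonneg (norm_nonneg _) two_ne_zero).1 this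
  obtain ⟨ρ, w, hρ, hw, hw2, hc⟩ := lam_cases hL
  have h0 : w ≠ 0 := norm_pos_iff.1 (hw ▸ one_pos)
  have hwi : ‖w⁻¹‖ = 1 := by rw [norm_inv, hw, inv_one]
  have n3 : ‖3 * w‖ = 3⁻¹ := by rw [norm_mul, norm3, hw, mul_one]
  have n9 : ‖9 * w‖ = 9⁻¹ := by
    rw [show (9 : ℚ_[3]) = 3 * 3 by norm_num, mul_assoc, norm_mul, norm3, n3]
    norm_num
  constructor
  · intro hA
    rcases hc with hc | hc | hc
    · obtain ⟨x1, y1, x2, y2, e, a, b, c, d, e0, e1, e2, e3⟩ := normal ι hA hρ hc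
      rw [Nat.cast_one, one_mul, hw] at c d
      rw [hw] at a b
      obtain ⟨x, y, h⟩ := toZ (c := 1) (f := f) hS (le_one (by linarith)) (le_one (by linarith))
        (le_one (by linarith)) (le_one (by linarith)) hwi hS2 e (inv_mul_cancel₀ h0)
        (inv_close hw hw2) (by simpa using e0) (by simpa using e1) (by simpa using e2)
        (by simpa using e3)
      exact case_one hD h
    · obtain ⟨x1, y1, x2, y2, e, a, b, c, d, -⟩ := normal ι hA hρ hc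
      rw [Nat.cast_one, one_mul, n3] at c d
      rw [n3] at a b
      exact (imposs (lt_one a) (lt_one b) (le_one (by linarith)) (le_one (by linarith)) e hS).elim
    · obtain ⟨x1, y1, x2, y2, e, a, b, c, d, -⟩ := normal ι hA hρ hc
      rw [Nat.cast_one, one_mul, n9] at c d
      rw [n9] at a b
      exact (imposs (lt_one (by linarith)) (lt_one (by linarith)) (le_one (by linarith))
        (le_one (by linarith)) e hS).elim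
  · intro hA
    rcases hc with hc | hc | hc
    · obtain ⟨x1, y1, x2, y2, e, a, b, c, d, e0, e1, e2, e3⟩ := normal ι hA hρ hc
      rw [Nat.cast_ofNat, n3] at c d
      rw [hw] at a b
      obtain ⟨x, y, h⟩ := toZ (c := 3) (f := f) hS (le_one (by linarith)) (le_one (by linarith))
        (le_one (by linarith)) (le_one (by linarith)) hwi hS2 e (inv_mul_cancel₀ h0)
        (inv_close hw hw2) (by simpa using e0) (by simpa using e1) (by simpa using e2)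
        (by simpa using e3)
      exact case_three hD h
    · obtain ⟨x1, y1, x2, y2, e, a, b, c, d, -⟩ := normal ι hA hρ hc
      rw [Nat.cast_ofNat, ← mul_assoc, show (3 : ℚ_[3]) * 3 = 9 by norm_num, n9] at c d
      rw [n3] at a b
      exact (imposs (lt_one a) (lt_one b) (le_one (by linarith)) (le_one (by linarith)) e hS).elim
    · have h3 : (3 : ℚ_[3]) ≠ 0 := three_ne_zero
      have hc' : ι δ = (3 * ρ) ^ 3 * (w / 3) := by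
        rw [hc]
        field_simp
        norm_num
      obtain ⟨x1, y1, x2, y2, e, a, b, c, d, e0, e1, e2, e3⟩ :=
        normal ι hA (mul_ne_zero h3 hρ) hc'
      have i1 : ((3 : ℕ) : ℚ_[3]) * (w / 3) = w := by
        push_cast
        field_simp
      have i2 : (w / 3)⁻¹ = 3 * w⁻¹ := by field_simp
      rw [i1, hw] at c d
      rw [norm_div, hw, norm3] at a b
      rw [i1, i2] at e0 e1 e2 e3
      obtain ⟨x, y, h⟩ := toZ (c := 3) (f := f) (S := -ι s) (x1 := x2) (y1 := y2) (x2 := x1)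
        (y2 := y1) (w2 := w⁻¹) (by rw [norm_neg, hS]) (le_one (by linarith))
        (le_one (by linarith)) (le_one (by norm_num at a; linarith))
        (le_one (by norm_num at b; linarith)) hw (by rw [neg_sq, hS2])
        (by linear_combination -e) (mul_inv_cancel₀ h0) hw2
        (by push_cast; linear_combination -e0) (by push_cast; linear_combination -e1)
        (by push_cast; linear_combination -e2) (by push_cast; linear_combination -e3)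
      exact case_three hD h

end Pool.Agent.MP_1246c0_nt.H59
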